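import Pool.Agent.H8.DS.TarG
import Pool.Agent.H8.DS.TarK

/-!
# Module GEN of the board ds_modules: all but countably many points of a slit are generic
-/

set_option autoImplicit false

namespace DS

open Set Data MeasureTheory

namespace H13GEN

variable {C S : Type}

lemma hc_inj (h2 : T_HITD) {X : Data C S} (hX : X.Surface) (t : ℝ) :
    ∀ (n : ℕ) (y₁ y₂ y : S × ℝ), X.HC t n y₁ y → X.HC t n y₂ y → y₁ = y₂ := by
  intro n
  induction n with
  | zero =>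
    intro y₁ y₂ y h h'
    exact Eq.trans (show y₁ = y from h) (show y₂ = y from h').symm
  | succ n ih =>
    rintro y₁ y₂ y ⟨z₁, hz₁, hc₁⟩ ⟨z₂, hz₂, hc₂⟩
    obtain rfl := ih z₁ z₂ y hc₁ hc₂
    exact (h2 C S X hX t z₁ y₁ y₂).2 hz₁ hz₂

lemma hc_fun (h2 : T_HITD) {X : Data C S} (hX : X.Surface) (t : ℝ) :
    ∀ (n : ℕ) (y y₁ y₂ : S × ℝ), X.HC t n y y₁ → X.HC t n y y₂ → y₁ = y₂ := by
  intro n
  induction n with
  | zero =>
    intro y y₁ y₂ h h'
    exact Eq.trans (show y = y₁ from h).symm (show y = y₂ from h')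
  | succ n ih =>
    rintro y y₁ y₂ ⟨z₁, hz₁, hc₁⟩ ⟨z₂, hz₂, hc₂⟩
    obtain rfl := (h2 C S X hX t y z₁ z₂).1 hz₁ hz₂
    exact ih z₁ y₁ y₂ hc₁ hc₂

lemma countable_prod [Finite S] {P : S × ℝ → Prop} (h : ∀ s : S, {ξ | P (s, ξ)}.Countable) :
    {y | P y}.Countable := by
  refine (Set.countable_iUnion fun s : S => (h s).image (fun ξ => (s, ξ))).mono ?_
  rintro ⟨s, ξ⟩ hy
  exact Set.mem_iUnion.2 ⟨s, ξ, hy, rfl⟩

end H13GEN

theorem pf_GEN (h1 : T_CTB) (h2 : T_HITD) : T_GEN := by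
  intro C S _ X hX t s
  have hA : {y | X.EndA t y}.Countable := H13GEN.countable_prod fun s => (h1 C S X hX t s).1
  have hB : {y | X.EndB t y}.Countable := H13GEN.countable_prod fun s => (h1 C S X hX t s).2
  have hU : ((⋃ n : ℕ, ⋃ y' ∈ {y | X.EndA t y}, {y | X.HC t n y y'}) ∪
      (⋃ n : ℕ, ⋃ y' ∈ {y | X.EndB t y}, {y | X.HC t n y' y})).Countable := by
    refine Set.Countable.union ?_ ?_
    · refine Set.countable_iUnion fun n => hA.biUnion fun y' _ => ?_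
      exact Set.Subsingleton.countable fun y₁ hy₁ y₂ hy₂ => H13GEN.hc_inj h2 hX t n y₁ y₂ y' hy₁ hy₂
    · refine Set.countable_iUnion fun n => hB.biUnion fun y' _ => ?_
      exact Set.Subsingleton.countable fun y₁ hy₁ y₂ hy₂ => H13GEN.hc_fun h2 hX t n y' y₁ y₂ hy₁ hy₂
  refine (hU.preimage_of_injOn (f := fun ξ : ℝ => (s, ξ)) ?_).mono ?_
  · intro a _ b _ hab
    exact (Prod.mk.inj hab).2
  · intro ξ hξ
    change ¬ X.Gen t (s, ξ) at hξ
    rw [Data.Gen, not_and_or] at hξ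
    rcases hξ with hξ | hξ
    · push Not at hξ
      obtain ⟨n, y', hc, he⟩ := hξ
      left
      exact Set.mem_iUnion.2 ⟨n, Set.mem_iUnion₂.2 ⟨y', he, hc⟩⟩
    · push Not at hξ
      obtain ⟨n, y', hc, he⟩ := hξ
      right
      exact Set.mem_iUnion.2 ⟨n, Set.mem_iUnion₂.2 ⟨y', he, hc⟩⟩

end DS
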